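import Pool.Agent.FHQ.StmtsT

/-!
# TM2: dichotomy for the residues of leading terms
-/

set_option autoImplicit false

open scoped BigOperators

noncomputable section

namespace Pool.Agent.FHQ.H84

open Pool.Agent.FHQ Polynomial

theorem rd_congr {n : ℕ} {S T : (p : ℕ) → (Fin n → ZMod p) → Prop} (h : RD n S)
    (hST : ∀ p x, S p x ↔ T p x) : RD n T := by
  have h1 : S = T := by
    funext p x
    exact propext (hST p x)
  exact h1 ▸ h

theorem rd_false (n : ℕ) : RD n (fun _ _ => False) := by
  have h1 : RD n (fun p x => ¬ MvPolynomial.aeval x (0 : MvPolynomial (Fin n) ℤ) = (0 : ZMod p)) :=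
    RD.not (RD.eq 0)
  exact rd_congr h1 (fun p x => by simp)

theorem rd_or {n : ℕ} {S T : (p : ℕ) → (Fin n → ZMod p) → Prop} (h1 : RD n S) (h2 : RD n T) :
    RD n (fun p x => S p x ∨ T p x) :=
  rd_congr (RD.not (RD.and (RD.not h1) (RD.not h2))) (fun p x => by tauto)

theorem rd_exists {n : ℕ} {ι : Type} (I : Finset ι)
    (S : ι → (p : ℕ) → (Fin n → ZMod p) → Prop) (h : ∀ i, RD n (S i)) :
    RD n (fun p x => ∃ i ∈ I, S i p x) := by
  classical
  induction I using Finset.induction_on with
  | empty => exact rd_congr (rd_false n) (fun p x => by simp)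
  | insert a s ha ih => exact rd_congr (rd_or (h a) ih) (fun p x => by simp)

theorem tm2 (hDCH : DchStmt) (hRSB : RsbStmt) : Tm2Stmt := by
  classical
  intro r D C hC
  obtain ⟨L, hL⟩ := hC
  let M : ℕ := Fintype.card (Fin r × Fin D)
  let e : Fin r × Fin D ≃ Fin M := Fintype.equivFin _
  let f : (Fin r → Finset (Fin D)) → Fin r → MvPolynomial (Fin (M + 1)) ℤ := fun J l =>
    ∑ k ∈ J l, MvPolynomial.X (Fin.succ (e (l, k))) * MvPolynomial.X 0 ^ (k : ℕ)
  let S : (Fin r → Finset (Fin D)) × Finset (Fin L.length) → (p : ℕ) →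
      (Fin (M + 1) → ZMod p) → Prop :=
    fun c p x => x 0 ≠ 0 ∧ ∃ i ∈ c.2, (L.get i).R p (fun l => MvPolynomial.aeval x (f c.1 l))
  have hS : ∀ c, RD (M + 1) (S c) := by
    intro c
    apply RD.and
    · exact rd_congr (RD.not (RD.eq (MvPolynomial.X 0))) (fun p x => by simp)
    · exact rd_exists c.2 _ (fun i => hRSB r (M + 1) _ (L.get i).hR (f c.1))
  have hd := fun c => hDCH M (S c) (hS c)
  choose N p0 hN using hd
  refine ⟨Finset.univ.sup N, Finset.univ.sup p0, ?_⟩
  intro p _ hp a s g
  let J : Fin r → Finset (Fin D) := fun l =>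
    Finset.univ.filter (fun k => Arg (fun k => a (l, k)) (fun k => s (l, k)) g k)
  let mu : Fin r → ℤ := fun l => Mu (fun k => a (l, k)) (fun k => s (l, k)) g
  let I : Finset (Fin L.length) := Finset.univ.filter (fun i => (L.get i).B mu)
  have hset : {z : ZMod p | z ≠ 0 ∧ Lead r D C a s z g} =
      {z : ZMod p | S (J, I) p (Fin.cons z (fun i => a (e.symm i)))} := by
    ext z
    have hsp : (fun l => MvPolynomial.aeval
        (Fin.cons z (fun i => a (e.symm i)) : Fin (M + 1) → ZMod p) (f J l)) =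
        fun l => Sp (fun k => a (l, k)) (fun k => s (l, k)) g z := by
      funext l
      simp only [f, map_sum, map_mul, map_pow, MvPolynomial.aeval_X, Fin.cons_succ, Fin.cons_zero,
        Equiv.symm_apply_apply, Sp]
      rw [Finset.sum_filter]
    have h1 : Lead r D C a s z g ↔
        ∃ i ∈ I, (L.get i).R p (fun l => MvPolynomial.aeval
          (Fin.cons z (fun i => a (e.symm i)) : Fin (M + 1) → ZMod p) (f J l)) := by
      rw [hsp]
      unfold Lead
      rw [hL]
      constructor
      · rintro ⟨b, hb, hR, hB⟩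
        obtain ⟨i, rfl⟩ := List.mem_iff_get.mp hb
        exact ⟨i, Finset.mem_filter.mpr ⟨Finset.mem_univ i, hB⟩, hR⟩
      · rintro ⟨i, hi, hR⟩
        exact ⟨L.get i, List.get_mem L i, hR, (Finset.mem_filter.mp hi).2⟩
    constructor
    · rintro ⟨hz, hlead⟩
      exact ⟨by simpa using hz, h1.mp hlead⟩
    · rintro ⟨hz, hlead⟩
      exact ⟨by simpa using hz, h1.mpr hlead⟩
  rw [hset]
  have hp1 : p0 (J, I) ≤ p := le_trans (Finset.le_sup (f := p0) (Finset.mem_univ (J, I))) hp
  have hN1 : N (J, I) ≤ Finset.univ.sup N := Finset.le_sup (f := N) (Finset.mem_univ (J, I))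
  rcases hN (J, I) p hp1 (fun i => a (e.symm i)) with h | h
  · left
    exact le_trans h hN1
  · right
    exact le_trans h (Nat.mul_le_mul_right _ hN1)

end Pool.Agent.FHQ.H84
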