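import Pool.Agent.FHQ.StmtsW

/-!
# WEI: an absolutely irreducible curve has many points
-/

set_option autoImplicit false

open scoped BigOperators

noncomputable section

namespace Pool.Agent.FHQ.H84

open Pool.Agent.FHQ Polynomial

theorem ev_eq {k : Type} [Field k] (x t : k) (F : k[X][X]) :
    ev x t F = (F.map (evalRingHom x)).eval t := by
  unfold ev
  rw [eval_map]

theorem ev_map {k k' : Type} [Field k] [Field k'] (φ : k →+* k') (x t : k) (F : k[X][X]) :
    ev (φ x) (φ t) (F.map (mapRingHom φ)) = φ (ev x t F) := by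
  unfold ev
  rw [eval₂_map, hom_eval₂]
  congr 1
  apply Polynomial.ringHom_ext
  · intro a
    simp
  · simp

theorem mh_map {k k' : Type} [Field k] [Field k'] (φ : k →+* k') (d e : ℕ) (h : k[X][X])
    (H : Mh d e h) : Mh d e (h.map (mapRingHom φ)) where
  mon := H.mon.map _
  deg := by rw [H.mon.natDegree_map]; exact H.deg
  cof := fun i => by
    rw [coeff_map]
    exact le_trans natDegree_map_le (H.cof i)

theorem wd_derivative {k : Type} [Field k] (d e : ℕ) (h : k[X][X]) (H : Mh d e h) :
    WD e (d * e) (derivative h) := by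
  intro b hb
  rw [coeff_derivative] at hb ⊢
  have hc : h.coeff (b + 1) ≠ 0 := by
    intro h0
    rw [h0, zero_mul] at hb
    exact hb rfl
  have hbd : b + 1 ≤ d := by
    rw [← H.deg]
    exact le_natDegree_of_ne_zero hc
  have h1 : (h.coeff (b + 1) * ((b : k[X]) + 1)).natDegree ≤ e := by
    refine le_trans natDegree_mul_le ?_
    have h2 : ((b : k[X]) + 1).natDegree = 0 := by
      have : ((b : k[X]) + 1) = ((b + 1 : ℕ) : k[X]) := by push_cast; ring
      rw [this]
      exact natDegree_natCast _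
    rw [h2, add_zero]
    exact H.cof _
  calc (h.coeff (b + 1) * ((b : k[X]) + 1)).natDegree + e * b ≤ e + e * b := by omega
    _ = (b + 1) * e := by ring
    _ ≤ d * e := Nat.mul_le_mul_right e hbd

theorem not_dvd_derivative {k : Type} [Field k] (p : ℕ) [CharP k p] (d e : ℕ) (h : k[X][X])
    (H : Mh d e h) (hd : 0 < d) (hdp : d < p) : ¬ h ∣ derivative h := by
  have hne : derivative h ≠ 0 := by
    intro h0
    have h1 : (derivative h).coeff (d - 1) = 0 := by rw [h0, coeff_zero]
    rw [coeff_derivative] at h1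
    have h2 : d - 1 + 1 = d := by omega
    have h3 : h.coeff d = 1 := by
      have := H.mon.coeff_natDegree
      rwa [H.deg] at this
    rw [h2, h3, one_mul] at h1
    have h4 : (((d - 1 : ℕ) : k[X]) + 1) = ((d : ℕ) : k[X]) := by
      have : ((d : ℕ) : k[X]) = ((d - 1 + 1 : ℕ) : k[X]) := by rw [h2]
      rw [this]
      push_cast
      ring
    rw [h4, CharP.cast_eq_zero_iff k[X] p] at h1
    exact absurd (Nat.le_of_dvd hd h1) (by omega)
  apply H.mon.not_dvd_of_natDegree_lt hne
  rw [H.deg]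
  have := natDegree_derivative_le h
  rw [H.deg] at this
  omega

theorem card_fib {k : Type} [Field k] [IsAlgClosed k] [DecidableEq k] (d : ℕ) (h : k[X][X])
    (hm : h.Monic) (hd : h.natDegree = d) (x : k)
    (hns : ∀ t, ev x t h = 0 → ev x t (derivative h) ≠ 0) :
    ((h.map (evalRingHom x)).roots.toFinset).card = d := by
  have hP : (h.map (evalRingHom x)).Monic := hm.map _
  have hnd : (h.map (evalRingHom x)).roots.Nodup := by
    rw [Multiset.nodup_iff_count_le_one]
    intro t
    rw [count_roots]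
    by_contra hlt
    push Not at hlt
    rw [one_lt_rootMultiplicity_iff_isRoot hP.ne_zero] at hlt
    obtain ⟨h1, h2⟩ := hlt
    apply hns t
    · rw [ev_eq]; exact h1
    · rw [ev_eq, ← derivative_map]; exact h2
  rw [Multiset.toFinset_card_of_nodup hnd, IsAlgClosed.card_roots_eq_natDegree,
    hm.natDegree_map, hd]

theorem main_ineq (d p e L m B G g : ℕ) (hd : 2 ≤ d) (hL : L = 8 * (d * e + 1))
    (h1 : p ≤ G + d * (d * e)) (h2 : d * L * B ≤ d * (m + d * e + p * ((d - 1) * L + d * e)))
    (h3 : d * G ≤ B + d * g) (hp : L * (d * (d * (d * e))) + m + d * e ≤ p) :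
    p ≤ 2 * d * g := by
  obtain ⟨n, rfl⟩ : ∃ n, d = n + 2 := ⟨d - 2, by omega⟩
  have e1 : n + 2 - 1 = n + 1 := by omega
  rw [e1] at h2
  have h2' : L * B ≤ m + (n + 2) * e + p * ((n + 1) * L + (n + 2) * e) := by
    have h2'' : (n + 2) * (L * B) ≤
        (n + 2) * (m + (n + 2) * e + p * ((n + 1) * L + (n + 2) * e)) := by
      calc (n + 2) * (L * B) = (n + 2) * L * B := by ring
        _ ≤ _ := h2
    exact Nat.le_of_mul_le_mul_left h2'' (by omega)
  have h4 : L * ((n + 2) * p) ≤ L * ((n + 2) * (G + (n + 2) * ((n + 2) * e))) :=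
    Nat.mul_le_mul_left _ (Nat.mul_le_mul_left _ h1)
  have h5 : L * ((n + 2) * G) ≤ L * (B + (n + 2) * g) := Nat.mul_le_mul_left _ h3
  have h6 : L * p ≤ p * ((n + 2) * e + 1) + L * ((n + 2) * g) := by
    nlinarith
  have h7 : ((n + 2) * e + 1) * (7 * p) ≤ ((n + 2) * e + 1) * (8 * ((n + 2) * g)) := by
    rw [hL] at h6
    nlinarith
  have h8 : 7 * p ≤ 8 * ((n + 2) * g) := Nat.le_of_mul_le_mul_left h7 (by positivity)
  nlinarith

theorem wei_core (hSTP : StpStmt) (hNRM : NrmStmt) (d e : ℕ) (hd : 2 ≤ d) (L Q m : ℕ)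
    (hL : L = 8 * (d * e + 1)) (hQ : Q = 2 * (d * e) + d * L * (d * e) + (d - 1) * L)
    (hm : m = L * (d - 1) * Q) (p : ℕ) [Fact p.Prime] (hp1 : d * (m + d * e) < p)
    (hp2 : d * L ≤ p) (hp3 : d < p) (hp4 : L * (d * (d * (d * e))) + m + d * e ≤ p)
    (h : (ZMod p)[X][X]) (hM : Mh d e h)
    (hirr : Irreducible (h.map (mapRingHom (algebraMap (ZMod p) (AlgebraicClosure (ZMod p)))))) :
    p ≤ 2 * d * {x : ZMod p | ∃ t, ev x t h = 0}.ncard := by
  classical
  set k : Type := AlgebraicClosure (ZMod p) with hk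
  set φ : ZMod p →+* k := algebraMap (ZMod p) (AlgebraicClosure (ZMod p)) with hφ
  set h' : k[X][X] := h.map (mapRingHom φ) with hh'
  have hM' : Mh d e h' := mh_map φ d e h hM
  have hd0 : 0 < d := by omega
  obtain ⟨nA, nB, nC, -, -, -⟩ := hNRM k d e h' hM' hd0
  set Δ : k[X] := nrm d h' (derivative h') with hΔ
  have hΔdeg : Δ.natDegree ≤ d * (d * e) := nA (d * e) _ (wd_derivative d e h' hM')
  have hΔ0 : Δ ≠ 0 := nB hirr _ (not_dvd_derivative p d e h' hM' hd0 hp3)
  have hφi : Function.Injective φ := φ.injective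
  let G : Finset (ZMod p) := Finset.univ.filter fun x => Δ.eval (φ x) ≠ 0
  let R : ZMod p → Finset k := fun x => (h'.map (evalRingHom (φ x))).roots.toFinset
  have hmemR : ∀ x t, t ∈ R x ↔ ev (φ x) t h' = 0 := by
    intro x t
    have hP : (h'.map (evalRingHom (φ x))) ≠ 0 := (hM'.mon.map _).ne_zero
    simp only [R]
    rw [Multiset.mem_toFinset, mem_roots hP, IsRoot.def, ev_eq]
  have hcardR : ∀ x ∈ G, (R x).card = d := by
    intro x hx
    apply card_fib d h' hM'.mon hM'.deg
    intro t ht h0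
    have := nC (derivative h') (φ x) t ht h0
    exact (Finset.mem_filter.mp hx).2 this
  let bad : ZMod p → Finset k := fun x => (R x).filter fun t => ∀ y : ZMod p, φ y ≠ t
  let good : ZMod p → Finset k := fun x => (R x).filter fun t => ¬ ∀ y : ZMod p, φ y ≠ t
  have hsplit : ∀ x, (R x).card = (bad x).card + (good x).card := by
    intro x
    exact (Finset.card_filter_add_card_filter_not (s := R x) (fun t => ∀ y : ZMod p, φ y ≠ t)).symm
  -- the number of the bad points
  set ST : Set (ZMod p × k) := {q | ev (φ q.1) q.2 h' = 0 ∧ (∀ y : ZMod p, φ y ≠ q.2) ∧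
    Δ.eval (φ q.1) ≠ 0} with hST
  have hB : ST.ncard = ∑ x ∈ G, (bad x).card := by
    have h1 : ST = (fun q : Σ _ : ZMod p, k => (q.1, q.2)) '' ((G.sigma bad : Finset _) :
        Set (Σ _ : ZMod p, k)) := by
      ext ⟨x, t⟩
      constructor
      · rintro ⟨a, b, c⟩
        refine ⟨⟨x, t⟩, ?_, rfl⟩
        rw [Finset.mem_coe, Finset.mem_sigma]
        exact ⟨Finset.mem_filter.mpr ⟨Finset.mem_univ _, c⟩,
          Finset.mem_filter.mpr ⟨(hmemR x t).mpr a, b⟩⟩
      · rintro ⟨⟨x', t'⟩, hq, heq⟩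
        rw [Finset.mem_coe, Finset.mem_sigma] at hq
        obtain ⟨h1, h2⟩ := Prod.mk.inj heq
        simp only at h1 h2
        subst h1
        subst h2
        obtain ⟨q1, q2⟩ := hq
        exact ⟨(hmemR _ _).mp (Finset.mem_filter.mp q2).1, (Finset.mem_filter.mp q2).2,
          (Finset.mem_filter.mp q1).2⟩
    rw [h1, Set.ncard_image_of_injective, Set.ncard_coe_finset, Finset.card_sigma]
    rintro ⟨a, b⟩ ⟨a', b'⟩ hab
    obtain ⟨h1, h2⟩ := Prod.mk.inj hab
    simp only at h1 h2
    subst h1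
    subst h2
    rfl
  have hSTP' := hSTP p d e m L h h' rfl hM' hd (by rw [hL]; omega) hirr hp1 hp2 hp3 (by
    obtain ⟨n, hn⟩ : ∃ n, d = n + 2 := ⟨d - 2, by omega⟩
    have e1 : d - 1 = n + 1 := by omega
    rw [e1] at hQ hm ⊢
    have e2 : m + 2 * (d * e) + d * L * (d * e) + (n + 1) * L + 1 = m + 1 + Q := by
      rw [hQ]; ring
    rw [e2]
    have e3 : d * L * ((m + 1 + Q) * (d * (n + 1))) + d * d =
        ((n + 1) * L + 1) * d * ((m + 1) * d) := by
      have : d * L * ((m + 1 + Q) * (d * (n + 1))) =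
          d * L * ((m + 1) * (d * (n + 1))) + d * d * (L * (n + 1) * Q) := by ring
      rw [this, ← hm]
      ring
    rw [← e3]
    exact Nat.lt_add_of_pos_right (Nat.mul_pos hd0 hd0))
  have h2 : d * L * (∑ x ∈ G, (bad x).card) ≤ d * (m + d * e + p * ((d - 1) * L + d * e)) := by
    rw [← hB]
    exact hSTP'
  -- the number of the x
  have h1 : p ≤ G.card + d * (d * e) := by
    have a1 : (Finset.univ.filter fun x : ZMod p => Δ.eval (φ x) ≠ 0).card +
        (Finset.univ.filter fun x : ZMod p => ¬ Δ.eval (φ x) ≠ 0).card = p := by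
      rw [Finset.card_filter_add_card_filter_not, Finset.card_univ, ZMod.card]
    have a2 : (Finset.univ.filter fun x : ZMod p => ¬ Δ.eval (φ x) ≠ 0).card ≤ d * (d * e) := by
      refine le_trans ?_ (le_trans (card_roots' Δ) hΔdeg)
      refine le_trans ?_ (Multiset.toFinset_card_le _)
      apply Finset.card_le_card_of_injOn (fun x => φ x)
      · intro x hx
        rw [Finset.mem_coe, Finset.mem_filter] at hx
        have h0 := not_not.mp hx.2
        rw [Finset.mem_coe, Multiset.mem_toFinset, mem_roots hΔ0]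
        exact h0
      · intro x _ y _ hxy
        exact hφi hxy
    change p ≤ (Finset.univ.filter fun x : ZMod p => Δ.eval (φ x) ≠ 0).card + _
    omega
  set T : Set (ZMod p) := {x : ZMod p | ∃ t, ev x t h = 0} with hT
  have h3 : d * G.card ≤ (∑ x ∈ G, (bad x).card) + d * T.ncard := by
    have b1 : d * G.card = ∑ x ∈ G, ((bad x).card + (good x).card) := by
      rw [Finset.sum_congr rfl (fun x hx => ((hsplit x).symm.trans (hcardR x hx)))]
      rw [Finset.sum_const, smul_eq_mul, mul_comm]
    rw [b1, Finset.sum_add_distrib]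
    apply Nat.add_le_add_left
    have b2 : ∀ x ∈ G, (good x).card ≤ if x ∈ T then d else 0 := by
      intro x hx
      by_cases hxT : x ∈ T
      · rw [if_pos hxT, ← hcardR x hx]
        exact Finset.card_le_card (Finset.filter_subset _ _)
      · rw [if_neg hxT, Nat.le_zero, Finset.card_eq_zero, Finset.eq_empty_iff_forall_notMem]
        intro t ht
        obtain ⟨ht1, ht2⟩ := Finset.mem_filter.mp ht
        push Not at ht2
        obtain ⟨y, rfl⟩ := ht2
        apply hxT
        refine ⟨y, hφi ?_⟩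
        rw [map_zero, ← ev_map]
        exact (hmemR x _).mp ht1
    calc ∑ x ∈ G, (good x).card ≤ ∑ x ∈ G, (if x ∈ T then d else 0) := Finset.sum_le_sum b2
      _ ≤ ∑ x : ZMod p, (if x ∈ T then d else 0) :=
          Finset.sum_le_sum_of_subset (Finset.subset_univ _)
      _ = d * T.ncard := by
        rw [← Finset.sum_filter, Finset.sum_const, smul_eq_mul, mul_comm]
        congr 1
        rw [← Set.ncard_coe_finset]
        congr 1
        ext x
        simp
  exact main_ineq d p e L m _ G.card T.ncard hd hL h1 h2 h3 hp4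

theorem wei (hSTP : StpStmt) (hNRM : NrmStmt) : WeiStmt := by
  intro d e hd
  rcases Nat.lt_or_ge d 2 with h1 | h2
  · have hd1 : d = 1 := by omega
    refine ⟨1, 0, ?_⟩
    intro p _ _ h hM _
    have hset : {x : ZMod p | ∃ t, ev x t h = 0} = Set.univ := by
      ext x
      simp only [Set.mem_univ, iff_true]
      refine ⟨-(h.coeff 0).eval x, ?_⟩
      have h3 : h = X + C (h.coeff 0) :=
        hM.mon.eq_X_add_C (by rw [hM.deg, hd1])
      rw [ev_eq, h3]
      simp
    rw [hset, Set.ncard_univ, Nat.card_zmod, one_mul]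
  · set L : ℕ := 8 * (d * e + 1) with hL
    set Q : ℕ := 2 * (d * e) + d * L * (d * e) + (d - 1) * L with hQ
    set m : ℕ := L * (d - 1) * Q with hm
    refine ⟨2 * d, d * (m + d * e) + d * L + d + (L * (d * (d * (d * e))) + m + d * e) + 1, ?_⟩
    intro p _ hp h hM hirr
    exact wei_core hSTP hNRM d e h2 L Q m hL hQ hm p (by omega) (by omega) (by omega) (by omega)
      h hM hirr

end Pool.Agent.FHQ.H84
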